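import Pool.Agent.Helper95.PHI.Count
import Pool.Agent.Helper1.PHI.Defs

/-!
# Violations of connectivity of `phiG`: normal form
-/

set_option autoImplicit false

namespace Pool.Agent.Helper95.PHI

open SimpleGraph Pool.Agent.Helper57.TOK Pool.Agent.Helper57.TD Pool.Agent.Helper57.TOP
  Pool.Agent.Helper82.TK Pool.Agent.Helper51.GX Pool.Agent.Helper75.SEP Pool.Agent.Helper1.SEP
  Pool.Agent.Helper1.PHI

variable {V : Type*} {G : SimpleGraph V} {U A B : Set V} {i j k m : V}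

lemma phE_adj {a b c u v : V} : (phE a b c).Adj u v ↔
    (s(u, v) = s(a, b) ∨ s(u, v) = s(c, a) ∨ s(u, v) = s(c, b)) ∧ u ≠ v := by
  unfold phE
  rw [fromEdgeSet_adj]
  simp only [Set.mem_insert_iff, Set.mem_singleton_iff]

lemma phiG_adj_in {u v : V} (h : G.Adj u v) (hu : u ∈ A ∪ {i, j, k})
    (hv : v ∈ A ∪ {i, j, k}) : (phiG G A i j k m).Adj u v := Or.inl ⟨h, hu, hv⟩

/-- The edges of the flexible link. -/
lemma phiG_tri (hij : i ≠ j) (hmi : m ≠ i) (hmj : m ≠ j) {u v : V} (hu : u = i ∨ u = j ∨ u = m)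
    (hv : v = i ∨ v = j ∨ v = m) (huv : u ≠ v) : (phiG G A i j k m).Adj u v := by
  right
  rw [phE_adj]
  refine ⟨?_, huv⟩
  rcases hu with rfl | rfl | rfl <;> rcases hv with rfl | rfl | rfl
  · exact absurd rfl huv
  · exact Or.inl rfl
  · exact Or.inr (Or.inl Sym2.eq_swap)
  · exact Or.inl Sym2.eq_swap
  · exact absurd rfl huv
  · exact Or.inr (Or.inr Sym2.eq_swap)
  · exact Or.inr (Or.inl rfl)
  · exact Or.inr (Or.inr rfl)
  · exact absurd rfl huv

lemma phiG_mem {u v : V} (h : (phiG G A i j k m).Adj u v) : v ∈ phiU A i j k m := by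
  rcases h with h | h
  · exact Or.inl h.2.2
  · rw [phE_adj] at h
    rcases h.1 with h1 | h1 | h1
    · rw [Sym2.eq_iff] at h1
      rcases h1 with ⟨-, h2⟩ | ⟨-, h2⟩
      · rw [h2]; exact Or.inl (Or.inr (Or.inr (Or.inl rfl)))
      · rw [h2]; exact Or.inl (Or.inr (Or.inl rfl))
    · rw [Sym2.eq_iff] at h1
      rcases h1 with ⟨-, h2⟩ | ⟨-, h2⟩
      · rw [h2]; exact Or.inl (Or.inr (Or.inl rfl))
      · rw [h2]; exact Or.inr rfl
    · rw [Sym2.eq_iff] at h1
      rcases h1 with ⟨-, h2⟩ | ⟨-, h2⟩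
      · rw [h2]; exact Or.inl (Or.inr (Or.inr (Or.inl rfl)))
      · rw [h2]; exact Or.inr rfl

/-- A pendant vertex `k` at `s` does not matter for two-colourability. -/
lemma ext_pendant {s l : V} (hsA : s ∈ A) (hall : ∀ x, G.Adj k x → x = s ∨ x ∈ B)
    (hkB : k ∉ B) (hkA : k ∉ A) (hAB : ∀ u, u ∈ A → u ∉ B) (hlB : l ∉ B) (hlk : l ≠ k)
    (h : BalIn G ((A \ {s}) ∪ {l, s})) : BalIn G (A ∪ {l, k}) := by
  classical
  obtain ⟨κ, hκ⟩ := h
  refine ⟨fun v => if v = k then κ s + 1 else κ v, ?_⟩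
  have hin : ∀ v ∈ A ∪ {l, k}, v ≠ k → v ∈ (A \ {s}) ∪ {l, s} := by
    rintro v (h1 | h1 | h1) hv
    · by_cases h2 : v = s
      · exact Or.inr (Or.inr h2)
      · exact Or.inl ⟨h1, h2⟩
    · exact Or.inr (Or.inl h1)
    · exact absurd h1 hv
  have hnB : ∀ v ∈ A ∪ {l, k}, v ∉ B := by
    rintro v (h1 | h1 | h1)
    · exact hAB v h1
    · rw [h1]; exact hlB
    · rw [h1]; exact hkB
  have hsk : s ≠ k := fun h1 => hkA (h1 ▸ hsA)
  intro u v hu hv huv
  by_cases h1 : u = k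
  · have h2 : v ≠ k := fun h3 => huv.ne (h1.trans h3.symm)
    rw [h1] at huv
    rcases hall v huv with h3 | h3
    · simp only [h1, if_true, h3, if_neg hsk]
      intro h4
      exact one_ne_zero (add_eq_left.1 h4)
    · exact absurd h3 (hnB v hv)
  · by_cases h2 : v = k
    · rw [h2] at huv
      rcases hall u huv.symm with h3 | h3
      · simp only [h2, if_true, h3, if_neg hsk]
        intro h4
        exact one_ne_zero (left_eq_add.1 h4)
      · exact absurd h3 (hnB u hu)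
    · simp only [h1, if_false, h2]
      exact hκ u v (hin u hu h1) (hin v hv h2) huv

theorem core [Finite V] (S : Sep3 G U A B i j k) (h : CB G U) {X C W : Set V}
    (hX : X ⊆ phiU A i j k m) (hi : i ∉ X) (hj : j ∉ X) (hmX : m ∉ X) (hX2 : 2 ≤ X.ncard)
    (hC2 : C.ncard ≤ 2)
    (hXC : ∀ u ∈ X, ∀ v, (phiG G A i j k m).Adj u v → v ∈ X ∨ v ∈ C)
    (hW : W ⊆ phiU A i j k m) (hW2 : 2 ≤ W.ncard) (hWX : ∀ w ∈ W, w ∉ X ∧ w ∉ C) :
    k ∈ X ∧ ∃ s t, C = {s, t} ∧ Vio G A B i j k s t (X \ {k}) := by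
  classical
  have hkA : k ∉ A := S.notA (Or.inr (Or.inr rfl))
  have hiA : i ∉ A := S.notA (Or.inl rfl)
  have hjA : j ∉ A := S.notA (Or.inr (Or.inl rfl))
  have hAB : ∀ u, u ∈ A → u ∉ B := fun u hu => Set.disjoint_left.1 S.disj hu
  have hXA : ∀ u ∈ X, u ∈ A ∨ u = k := by
    intro u hu
    rcases hX hu with (h1 | h1 | h1 | h1) | h1
    · exact Or.inl h1
    · exact absurd (h1 ▸ hu) hi
    · exact absurd (h1 ▸ hu) hj
    · exact Or.inr h1
    · exact absurd (h1 ▸ hu) hmX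
  set X0 := X \ {k} with hX0
  have h0A : X0 ⊆ A := by
    rintro u ⟨hu, huk⟩
    rcases hXA u hu with h1 | h1
    · exact h1
    · exact absurd h1 huk
  have h0ne : X0.Nonempty := by
    obtain ⟨x, hx, hxk⟩ := Set.exists_ne_of_one_lt_ncard hX2 k
    exact ⟨x, hx, hxk⟩
  have hN : Nb G X0 ⊆ insert k C := by
    rintro v ⟨hv, u, hu, huv⟩
    by_cases hvk : v = k
    · exact Or.inl hvk
    · right
      have h1 : v ∈ A ∪ {i, j, k} := by
        rcases S.nbA (h0A hu) huv with h2 | h2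
        · exact Or.inl h2
        · exact Or.inr h2
      rcases hXC u hu.1 v (phiG_adj_in huv (Or.inl (h0A hu)) h1) with h3 | h3
      · exact absurd ⟨h3, hvk⟩ hv
      · exact h3
  have h3 := three_nb S h h0A h0ne
  have h4 := Set.ncard_le_ncard hN (Set.toFinite _)
  have h5 : (insert k C).ncard ≤ C.ncard + 1 := Set.ncard_insert_le _ _
  have hkC : k ∉ C := by
    intro hk
    rw [Set.insert_eq_of_mem hk] at h4
    omega
  have hNe : Nb G X0 = insert k C := Set.eq_of_subset_of_ncard_le hN (by omega) (Set.toFinite _)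
  have hCc : C.ncard = 2 := by omega
  obtain ⟨s, t, hst, hC⟩ := Set.ncard_eq_two.1 hCc
  have hkX : k ∈ X := by
    have h6 : k ∈ Nb G X0 := by rw [hNe]; exact Or.inl rfl
    obtain ⟨-, u, hu, huk⟩ := h6
    rcases hXC u hu.1 k (phiG_adj_in huk (Or.inl (h0A hu)) (Or.inr (Or.inr (Or.inr rfl)))) with
      h7 | h7
    · exact h7
    · exact absurd h7 hkC
  have hCN : ∀ c ∈ C, c ∉ X0 ∧ (c ∈ A ∨ c = i ∨ c = j) := by
    intro c hc
    have h6 : c ∈ Nb G X0 := by rw [hNe]; exact Or.inr hc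
    refine ⟨h6.1, ?_⟩
    obtain ⟨-, u, hu, huc⟩ := h6
    rcases S.nbA (h0A hu) huc with h7 | h7 | h7 | h7
    · exact Or.inl h7
    · exact Or.inr (Or.inl h7)
    · exact Or.inr (Or.inr h7)
    · exact absurd (h7 ▸ hc) hkC
  have hs : s ∈ C := by rw [hC]; exact Or.inl rfl
  have ht : t ∈ C := by rw [hC]; exact Or.inr rfl
  have hnb : ∀ u ∈ X0, ∀ v, G.Adj u v → v ∈ X0 ∨ v = k ∨ v = s ∨ v = t := by
    intro u hu v huv
    by_cases hv : v ∈ X0
    · exact Or.inl hv
    · have h6 : v ∈ Nb G X0 := ⟨hv, u, hu, huv⟩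
      rw [hNe, hC] at h6
      exact Or.inr h6
  have hnk : ∀ v, G.Adj k v → v ∈ B ∨ v ∈ X0 ∨ v = s ∨ v = t := by
    intro v hv
    have hvU : v ∈ U := h.edge_mem v k hv.symm
    by_cases hvB : v ∈ B
    · exact Or.inl hvB
    · have h6 : v ∈ A ∪ {i, j, k} := by
        rcases S.cov v hvU with h7 | h7 | h7
        · exact Or.inl h7
        · exact absurd h7 hvB
        · exact Or.inr h7
      rcases hXC k hkX v (phiG_adj_in hv (Or.inr (Or.inr (Or.inr rfl))) h6) with h7 | h7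
      · exact Or.inr (Or.inl ⟨h7, fun h8 => hv.ne h8.symm⟩)
      · rw [hC] at h7
        exact Or.inr (Or.inr h7)
  refine ⟨hkX, s, t, hC, ⟨h0A, h0ne, hst, (hCN s hs).2, (hCN t ht).2, (hCN s hs).1, (hCN t ht).1,
    hnb, hnk, ?_⟩⟩
  by_contra hcon
  have hcij : (i = s ∧ j = t) ∨ (i = t ∧ j = s) := by
    have hij := S.ij
    by_cases a1 : i = s <;> by_cases a2 : i = t <;> by_cases a3 : j = s <;> by_cases a4 : j = t <;>
      simp_all
  have hCij : ∀ v, v = s ∨ v = t ↔ v = i ∨ v = j := by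
    intro v
    rcases hcij with ⟨h1, h2⟩ | ⟨h1, h2⟩
    · rw [h1, h2]
    · rw [h1, h2]; exact or_comm
  by_cases hP : (A \ X0).Nonempty
  · have h6 := three_nb S h (Z := A \ X0) Set.sdiff_subset hP
    have h7 : Nb G (A \ X0) ⊆ {i, j} := by
      rintro v ⟨hv, u, hu, huv⟩
      rcases S.nbA hu.1 huv with h8 | h8 | h8 | h8
      · exfalso
        have h9 : v ∈ X0 := by
          by_contra h9
          exact hv ⟨h8, h9⟩
        rcases hnb v h9 u huv.symm with h10 | h10 | h10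
        · exact hu.2 h10
        · exact hkA (h10 ▸ hu.1)
        · rcases (hCij u).1 h10 with h11 | h11
          · exact hiA (h11 ▸ hu.1)
          · exact hjA (h11 ▸ hu.1)
      · exact Or.inl h8
      · exact Or.inr h8
      · exfalso
        rw [h8] at huv
        rcases hnk u huv.symm with h9 | h9 | h9
        · exact hAB u hu.1 h9
        · exact hu.2 h9
        · rcases (hCij u).1 h9 with h11 | h11
          · exact hiA (h11 ▸ hu.1)
          · exact hjA (h11 ▸ hu.1)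
    have h8 := Set.ncard_le_ncard h7 (Set.toFinite _)
    have h9 := ncard_pair_le' i j
    omega
  · rw [Set.not_nonempty_iff_eq_empty, Set.sdiff_eq_empty] at hP
    have h6 : W ⊆ {m} := by
      intro w hw
      obtain ⟨h7, h8⟩ := hWX w hw
      rcases hW hw with (h9 | h9 | h9 | h9) | h9
      · exact absurd (hP h9).1 h7
      · exact absurd (by rw [hC]; exact (hCij w).2 (Or.inl h9)) h8
      · exact absurd (by rw [hC]; exact (hCij w).2 (Or.inr h9)) h8
      · exact absurd (h9 ▸ hkX) h7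
      · exact h9
    have h7 := Set.ncard_le_ncard h6 (Set.toFinite _)
    rw [Set.ncard_singleton] at h7
    omega

end Pool.Agent.Helper95.PHI
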