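import Pool.Agent.Helper75.SEP.Numbers

/-!
# Counting the neighbours of a vertex outside a set, and small neighbourhoods
-/

set_option autoImplicit false

namespace Pool.Agent.Helper95.PHI

open SimpleGraph Pool.Agent.Helper57.TOK Pool.Agent.Helper57.TD Pool.Agent.Helper57.TOP
  Pool.Agent.Helper82.TK Pool.Agent.Helper51.GX Pool.Agent.Helper75.SEP

variable {V : Type*} {G : SimpleGraph V} {U A B Y : Set V} {i j k y : V}

/-- Neighbours of `y` outside `Y`, when they lie in the explicit set `F`. -/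
lemma cnt {F : Finset V} (h1 : ∀ v, G.Adj y v → v ∈ Y ∨ v ∈ F) (h2 : ∀ v ∈ F, v ∉ Y) :
    ((G.neighborSet y \ Y).ncard : ℤ) = ∑ c ∈ F, rr G y c := by
  classical
  have h : G.neighborSet y \ Y = ((F.filter fun c => G.Adj y c : Finset V) : Set V) := by
    ext v
    simp only [Set.mem_sdiff, SimpleGraph.mem_neighborSet, Finset.coe_filter, Set.mem_ofPred_eq]
    constructor
    · rintro ⟨h3, h4⟩
      rcases h1 v h3 with h5 | h5
      · exact absurd h5 h4
      · exact ⟨h5, h3⟩
    · rintro ⟨h3, h4⟩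
      exact ⟨h4, h2 v h3⟩
  rw [h, Set.ncard_coe_finset, Finset.card_filter]
  push_cast
  refine Finset.sum_congr rfl ?_
  intro c _
  unfold rr
  by_cases h3 : G.Adj y c
  · rw [if_pos h3]
  · rw [if_neg h3]

lemma rr_pos (h : G.Adj i j) : rr G i j = 1 := by
  unfold rr; rw [if_pos h]

lemma rr_neg (h : ¬ G.Adj i j) : rr G i j = 0 := by
  unfold rr; rw [if_neg h]

/-- A nonempty subset of a side has at least three neighbours. -/
lemma three_nb [Finite V] (s : Sep3 G U A B i j k) (h : CB G U) {Z : Set V} (hZ : Z ⊆ A)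
    (hne : Z.Nonempty) : 3 ≤ (Nb G Z).ncard := by
  classical
  by_contra hcon
  have hZU : Z ⊆ U := hZ.trans s.AU
  by_cases h2 : 2 ≤ Z.ncard
  · have h3 := h.conn Z hZU h2 (by omega)
    have h4 : B ⊆ U \ (Z ∪ Nb G Z) := by
      intro u hu
      refine ⟨s.BU hu, ?_⟩
      rintro (h5 | ⟨-, z, hz, hzu⟩)
      · exact Set.disjoint_left.1 s.disj (hZ h5) hu
      · rcases s.nbA (hZ hz) hzu with h6 | h6
        · exact Set.disjoint_left.1 s.disj h6 hu
        · exact s.notB h6 hu
    have h5 := Set.ncard_le_ncard h4 (Set.toFinite _)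
    have h6 := s.B2
    omega
  · obtain ⟨z, hz⟩ := hne
    have h3 : Z = {z} := by
      refine (Set.eq_of_subset_of_ncard_le (Set.singleton_subset_iff.2 hz) ?_
        (Set.toFinite _)).symm
      rw [Set.ncard_singleton]
      omega
    have h4 : G.neighborSet z ⊆ Nb G Z := by
      intro v hv
      rw [h3]
      exact ⟨fun h5 => hv.ne (by rw [h5]), z, rfl, hv⟩
    have h5 := Set.ncard_le_ncard h4 (Set.toFinite _)
    have h6 := h.deg3 z (hZU hz)
    omega

end Pool.Agent.Helper95.PHI
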